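import Pool.Agent.R963.Inv.Quant

/-!
# The law of the difference of two independent copies
-/

namespace Pool.Agent.R963.Inv

open MeasureTheory ProbabilityTheory Set Filter Topology
open scoped ENNReal

/-- the law of the difference of two independent copies -/
noncomputable def dif (μ : Measure ℝ) : Measure ℝ := μ ∗ (μ.map Neg.neg)

/-- `E |D + w|` -/
noncomputable def Dm (μ : Measure ℝ) (w : ℝ) : ℝ≥0∞ := ∫⁻ x, ENNReal.ofReal |x + w| ∂(dif μ)

section

variable {μ ζ : Measure ℝ} [IsProbabilityMeasure μ] [IsProbabilityMeasure ζ]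

instance : IsProbabilityMeasure (μ.map Neg.neg) :=
  Measure.isProbabilityMeasure_map measurable_neg.aemeasurable

instance : IsProbabilityMeasure (dif μ) := by unfold dif; infer_instance

lemma lintegral_dif {f : ℝ → ℝ≥0∞} (hf : Measurable f) :
    ∫⁻ x, f x ∂(dif μ) = ∫⁻ x, ∫⁻ y, f (x - y) ∂μ ∂μ := by
  unfold dif
  rw [Measure.lintegral_conv hf]
  congr 1
  ext x
  rw [lintegral_map (by fun_prop) measurable_neg]
  rfl

lemma dif_conv : dif (μ ∗ ζ) = dif μ ∗ dif ζ := by
  unfold dif
  have h : (μ ∗ ζ).map Neg.neg = (μ.map Neg.neg) ∗ (ζ.map Neg.neg) := by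
    have := Measure.map_conv_addMonoidHom (μ := μ) (ν := ζ) (negAddMonoidHom : ℝ →+ ℝ)
      (by rw [coe_negAddMonoidHom]; exact measurable_neg)
    rwa [coe_negAddMonoidHom] at this
  rw [h, Measure.conv_assoc, Measure.conv_assoc]
  congr 1
  rw [← Measure.conv_assoc, Measure.conv_comm ζ, Measure.conv_assoc]

lemma Dm_conv : Dm (μ ∗ ζ) 0 = ∫⁻ w, Dm μ w ∂(dif ζ) := by
  unfold Dm
  rw [dif_conv, Measure.conv_comm, Measure.lintegral_conv (by fun_prop)]
  congr 1
  ext w
  congr 1
  ext x
  rw [add_zero, add_comm]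

lemma measurable_Dm : Measurable (Dm μ) := by
  unfold Dm
  exact Measurable.lintegral_prod_left' (f := fun p : ℝ × ℝ => ENNReal.ofReal |p.1 + p.2|)
    (by fun_prop)

lemma dif_symm : (dif μ).map Neg.neg = dif μ := by
  unfold dif
  have h := Measure.map_conv_addMonoidHom (μ := μ) (ν := μ.map Neg.neg) (negAddMonoidHom : ℝ →+ ℝ)
    (by rw [coe_negAddMonoidHom]; exact measurable_neg)
  rw [coe_negAddMonoidHom] at h
  rw [h, Measure.map_map measurable_neg measurable_neg,
    show (Neg.neg ∘ Neg.neg : ℝ → ℝ) = id by ext x; simp, Measure.map_id, Measure.conv_comm]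

/-- symmetrization -/
lemma Dm_eq (w : ℝ) : Dm μ w = ∫⁻ x, ENNReal.ofReal (max |x| |w|) ∂(dif μ) := by
  have h2 : Dm μ w = ∫⁻ x, ENNReal.ofReal |-x + w| ∂(dif μ) := by
    unfold Dm
    conv_lhs => rw [← dif_symm]
    rw [lintegral_map (by fun_prop) measurable_neg]
  have h3 : 2 * Dm μ w = 2 * ∫⁻ x, ENNReal.ofReal (max |x| |w|) ∂(dif μ) := by
    rw [two_mul]
    conv_lhs => rw [h2]
    conv_lhs => 
      lhs
      rw [← h2]
      unfold Dm
    rw [← lintegral_add_left (by fun_prop), ← lintegral_const_mul _ (by fun_prop)]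
    congr 1
    ext x
    rw [← ENNReal.ofReal_add (abs_nonneg _) (abs_nonneg _),
      show (2 : ℝ≥0∞) = ENNReal.ofReal 2 by simp, ← ENNReal.ofReal_mul (by norm_num)]
    congr 1
    rcases le_total |x| |w| with h | h
    · rw [max_eq_right h]
      rcases abs_cases x with hx | hx <;> rcases abs_cases w with hw | hw <;>
      rcases abs_cases (x + w) with h1 | h1 <;> rcases abs_cases (-x + w) with h4 | h4 <;> linarith
    · rw [max_eq_left h]
      rcases abs_cases x with hx | hx <;> rcases abs_cases w with hw | hw <;>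
      rcases abs_cases (x + w) with h1 | h1 <;> rcases abs_cases (-x + w) with h4 | h4 <;> linarith
  exact (ENNReal.mul_right_inj (by norm_num) (by norm_num)).mp h3

/-- if the difference vanishes almost surely, the law is a point mass -/
lemma dirac_of_dif (h : ∀ᵐ w ∂(dif ζ), w = 0) : ∃ c : ℝ, ζ = Measure.dirac c := by
  have h1 : ∫⁻ w, ENNReal.ofReal |w| ∂(dif ζ) = 0 := by
    rw [lintegral_eq_zero_iff (by fun_prop)]
    filter_upwards [h] with w hw
    simp [hw]
  rw [lintegral_dif (by fun_prop), lintegral_eq_zero_iff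
    (Measurable.lintegral_prod_right' (f := fun p : ℝ × ℝ => ENNReal.ofReal |p.1 - p.2|)
      (by fun_prop))] at h1
  obtain ⟨c, hc⟩ := h1.exists
  refine ⟨c, ?_⟩
  simp only [Pi.zero_apply] at hc
  rw [lintegral_eq_zero_iff (by fun_prop)] at hc
  have hae : ∀ᵐ y ∂ζ, y = c := by
    filter_upwards [hc] with y hy
    have : |c - y| ≤ 0 := by simpa using hy
    have := abs_nonpos_iff.mp this
    linarith
  have hmap : ζ.map (fun _ => c) = ζ.map id := by
    apply Measure.map_congr
    filter_upwards [hae] with y hy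
    exact hy.symm
  rw [Measure.map_id, Measure.map_const, measure_univ, one_smul] at hmap
  exact hmap.symm

end

section Integrals

variable {μ ζ : Measure ℝ} [IsProbabilityMeasure μ] [IsProbabilityMeasure ζ]

lemma integral_lt {u : ℝ} (hu : u ∈ Ioo (0 : ℝ) 1) : ∫ v, (if v < u then (1 : ℝ) else 0) ∂U = u := by
  have : (fun v : ℝ => if v < u then (1 : ℝ) else 0) = (Iio u).indicator (fun _ => 1) := by
    ext v; simp [indicator]
  rw [this, integral_indicator_const _ measurableSet_Iio, smul_eq_mul, mul_one, measureReal_def,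
    Measure.restrict_apply' measurableSet_Ioo,
    show Iio u ∩ Ioo 0 1 = Ioo 0 u by
      ext v; simp only [mem_inter_iff, mem_Iio, mem_Ioo]
      constructor
      · rintro ⟨h1, h2, _⟩; exact ⟨h2, h1⟩
      · rintro ⟨h1, h2⟩; exact ⟨h2, h1, h2.trans hu.2⟩,
    Real.volume_Ioo, sub_zero, ENNReal.toReal_ofReal hu.1.le]

lemma integral_gt {u : ℝ} (hu : u ∈ Ioo (0 : ℝ) 1) :
    ∫ v, (if u < v then (1 : ℝ) else 0) ∂U = 1 - u := by
  have : (fun v : ℝ => if u < v then (1 : ℝ) else 0) = (Ioi u).indicator (fun _ => 1) := by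
    ext v; simp [indicator]
  rw [this, integral_indicator_const _ measurableSet_Ioi, smul_eq_mul, mul_one, measureReal_def,
    Measure.restrict_apply' measurableSet_Ioo,
    show Ioi u ∩ Ioo 0 1 = Ioo u 1 by
      ext v; simp only [mem_inter_iff, mem_Ioi, mem_Ioo]
      constructor
      · rintro ⟨h1, _, h3⟩; exact ⟨h1, h3⟩
      · rintro ⟨h1, h2⟩; exact ⟨h1, hu.1.trans h1, h2⟩,
    Real.volume_Ioo, ENNReal.toReal_ofReal (by linarith [hu.2])]

/-- the mean absolute difference in terms of the quantile function -/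
lemma Dm_quant (hμ : Integrable (fun x => x) μ) :
    Dm μ 0 ≠ ∞ ∧ (Dm μ 0).toReal = 2 * ∫ u, quant μ u * (2 * u - 1) ∂U := by
  have hq := integrable_quant hμ
  set q := quant μ with hqdef
  have hqm : AEMeasurable q U := aemeasurable_quant
  have hint : Integrable (fun p : ℝ × ℝ => q p.1 - q p.2) (U.prod U) :=
    (hq.comp_fst U).sub (hq.comp_snd U)
  have hD : Dm μ 0 = ∫⁻ p, ENNReal.ofReal |q p.1 - q p.2| ∂(U.prod U) := by
    have h1 : Dm μ 0 = ∫⁻ x, ∫⁻ y, ENNReal.ofReal |x - y| ∂μ ∂μ := by
      unfold Dm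
      simp only [add_zero]
      rw [lintegral_dif (by fun_prop)]
    have hmeas : Measurable (fun x => ∫⁻ y, ENNReal.ofReal |x - y| ∂μ) :=
      Measurable.lintegral_prod_right' (f := fun p : ℝ × ℝ => ENNReal.ofReal |p.1 - p.2|)
        (by fun_prop)
    have e2 : ∫⁻ x, ∫⁻ y, ENNReal.ofReal |x - y| ∂μ ∂μ =
        ∫⁻ u, ∫⁻ y, ENNReal.ofReal |q u - y| ∂μ ∂U := by
      have := lintegral_map' (μ := U) (g := q) (f := fun x => ∫⁻ y, ENNReal.ofReal |x - y| ∂μ)
        hmeas.aemeasurable hqm
      rw [← this, hqdef, map_quant]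
    have e1 : ∀ x, ∫⁻ y, ENNReal.ofReal |x - y| ∂μ = ∫⁻ v, ENNReal.ofReal |x - q v| ∂U := by
      intro x
      have := lintegral_map' (μ := U) (g := q) (f := fun y => ENNReal.ofReal |x - y|)
        (by fun_prop) hqm
      rw [← this, hqdef, map_quant]
    rw [h1, e2, lintegral_prod _ hint.abs.aestronglyMeasurable.aemeasurable.ennreal_ofReal]
    simp only [e1]
  have hD2 : Dm μ 0 = ENNReal.ofReal (∫ p, |q p.1 - q p.2| ∂(U.prod U)) := by
    rw [hD, ofReal_integral_eq_lintegral_ofReal hint.abs (Eventually.of_forall fun p => abs_nonneg _)]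
  refine ⟨by rw [hD2]; exact ENNReal.ofReal_ne_top, ?_⟩
  rw [hD2, ENNReal.toReal_ofReal (integral_nonneg fun p => abs_nonneg _)]
  -- the sign
  set s : ℝ × ℝ → ℝ := fun p => (if p.2 < p.1 then 1 else 0) - (if p.1 < p.2 then 1 else 0) with hs
  have hsm : Measurable s := by
    apply Measurable.sub
    · exact Measurable.ite (measurableSet_lt measurable_snd measurable_fst) measurable_const
        measurable_const
    · exact Measurable.ite (measurableSet_lt measurable_fst measurable_snd) measurable_const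
        measurable_const
  have hsb : ∀ p, ‖s p‖ ≤ 2 := by
    intro p
    simp only [hs]
    split_ifs <;> norm_num
  have hi1 : Integrable (fun p : ℝ × ℝ => q p.1 * s p) (U.prod U) := by
    have := (hq.comp_fst (ν := U)).bdd_mul (c := 2) hsm.aestronglyMeasurable
      (Eventually.of_forall hsb)
    refine this.congr (Eventually.of_forall fun p => ?_)
    simp only
    ring
  have hi2 : Integrable (fun p : ℝ × ℝ => q p.2 * s p) (U.prod U) := by
    have := (hq.comp_snd (μ := U)).bdd_mul (c := 2) hsm.aestronglyMeasurable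
      (Eventually.of_forall hsb)
    refine this.congr (Eventually.of_forall fun p => ?_)
    simp only
    ring
  have hae : ∀ᵐ p ∂(U.prod U), p.1 ∈ Ioo (0 : ℝ) 1 ∧ p.2 ∈ Ioo (0 : ℝ) 1 := by
    have h3 : ∀ᵐ u ∂U, u ∈ Ioo (0 : ℝ) 1 := ae_restrict_mem measurableSet_Ioo
    exact ((Measure.quasiMeasurePreserving_fst (μ := U) (ν := U)).ae h3).and
      ((Measure.quasiMeasurePreserving_snd (μ := U) (ν := U)).ae h3)
  have h4 : ∫ p, |q p.1 - q p.2| ∂(U.prod U) =
      ∫ p, (q p.1 * s p - q p.2 * s p) ∂(U.prod U) := by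
    apply integral_congr_ae
    filter_upwards [hae] with p hp
    simp only [hs]
    rcases lt_trichotomy p.1 p.2 with h | h | h
    · have := quant_mono (μ := μ) hp.1 hp.2 h.le
      rw [if_neg h.not_gt, if_pos h, abs_of_nonpos (by rw [hqdef]; linarith)]
      ring
    · rw [h]; simp
    · have := quant_mono (μ := μ) hp.2 hp.1 h.le
      rw [if_pos h, if_neg h.not_gt, abs_of_nonneg (by rw [hqdef]; linarith)]
      ring
  rw [h4, integral_sub hi1 hi2, integral_prod _ hi1, integral_prod_symm _ hi2]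
  have h5 : ∫ x, ∫ y, q x * s (x, y) ∂U ∂U = ∫ u, q u * (2 * u - 1) ∂U := by
    apply setIntegral_congr_fun measurableSet_Ioo
    intro u hu
    simp only
    rw [integral_const_mul]
    simp only [hs]
    rw [integral_sub, integral_lt hu, integral_gt hu]
    · ring
    · exact ((integrable_const (1 : ℝ)).indicator measurableSet_Iio (s := Iio u)).congr
        (Eventually.of_forall fun v => by simp [indicator])
    · exact ((integrable_const (1 : ℝ)).indicator measurableSet_Ioi (s := Ioi u)).congr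
        (Eventually.of_forall fun v => by simp [indicator])
  have h6 : ∫ y, ∫ x, q y * s (x, y) ∂U ∂U = ∫ u, q u * (1 - 2 * u) ∂U := by
    apply setIntegral_congr_fun measurableSet_Ioo
    intro u hu
    simp only
    rw [integral_const_mul]
    simp only [hs]
    rw [integral_sub, integral_lt hu, integral_gt hu]
    · ring
    · exact ((integrable_const (1 : ℝ)).indicator measurableSet_Ioi (s := Ioi u)).congr
        (Eventually.of_forall fun v => by simp [indicator])
    · exact ((integrable_const (1 : ℝ)).indicator measurableSet_Iio (s := Iio u)).congr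
        (Eventually.of_forall fun v => by simp [indicator])
  rw [h5, h6]
  have h7 : ∫ u, q u * (1 - 2 * u) ∂U = - ∫ u, q u * (2 * u - 1) ∂U := by
    rw [← integral_neg]
    congr 1
    ext u; ring
  rw [h7]; ring

lemma integrable_conv (h1 : Integrable (fun x => x) μ) (h2 : Integrable (fun x => x) ζ) :
    Integrable (fun x => x) (μ ∗ ζ) := by
  unfold Measure.conv
  rw [integrable_map_measure (by fun_prop) (by fun_prop)]
  exact (h1.comp_fst ζ).add (h2.comp_snd μ)

lemma mean_conv (h1 : Integrable (fun x => x) μ) (h2 : Integrable (fun x => x) ζ) :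
    ∫ x, x ∂(μ ∗ ζ) = ∫ x, x ∂μ + ∫ x, x ∂ζ := by
  rw [integral_conv (integrable_conv h1 h2)]
  have : ∀ x, ∫ y, (x + y) ∂ζ = x + ∫ y, y ∂ζ := by
    intro x
    rw [integral_add (integrable_const _) h2]
    simp
  simp only [this]
  rw [integral_add h1 (integrable_const _)]
  simp

end Integrals

end Pool.Agent.R963.Inv
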