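import Pool.Agent.R963.Inv.Dis

/-!
# The two laws of the counterexample
-/

namespace Pool.Agent.R963.Inv

open MeasureTheory ProbabilityTheory Set Filter Topology
open scoped ENNReal

/-- the quantile function of `X` -/
noncomputable def gX (L : ℝ) (u : ℝ) : ℝ := if u ≤ 3 / 4 then -L / 4 else 3 * L / 4

/-- one half of the quantile function of `Y` -/
noncomputable def mm (u : ℝ) : ℝ := min 0 (Real.log (10 * u))

/-- the quantile function of `Y` -/
noncomputable def gY (u : ℝ) : ℝ := mm u - mm (1 - u)

noncomputable def muX (L : ℝ) : Measure ℝ := U.map (gX L)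
noncomputable def muY : Measure ℝ := U.map gY

lemma measurable_gX (L : ℝ) : Measurable (gX L) := by
  unfold gX
  exact Measurable.ite measurableSet_Iic measurable_const measurable_const

lemma measurable_mm : Measurable mm := by unfold mm; fun_prop

lemma measurable_gY : Measurable gY := by
  unfold gY
  exact measurable_mm.sub (measurable_mm.comp (measurable_const.sub measurable_id))

instance (L : ℝ) : IsProbabilityMeasure (muX L) :=
  Measure.isProbabilityMeasure_map (measurable_gX L).aemeasurable

instance : IsProbabilityMeasure muY := Measure.isProbabilityMeasure_map measurable_gY.aemeasurable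

lemma gX_mono {L : ℝ} (hL : 0 ≤ L) : Monotone (gX L) := by
  intro u v huv
  unfold gX
  split_ifs <;> linarith

lemma mm_mono {u v : ℝ} (hu : 0 < u) (huv : u ≤ v) : mm u ≤ mm v := by
  unfold mm
  exact min_le_min le_rfl (Real.log_le_log (by linarith) (by linarith))

lemma gY_mono : MonotoneOn gY (Ioo 0 1) := by
  intro u hu v hv huv
  unfold gY
  have h1 := mm_mono hu.1 huv
  have h2 := mm_mono (by linarith [hv.2] : 0 < 1 - v) (by linarith : 1 - v ≤ 1 - u)
  linarith

lemma gY_odd (u : ℝ) : gY (1 - u) = - gY u := by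
  unfold gY
  rw [sub_sub_cancel]; ring

lemma mm_eq_zero {u : ℝ} (hu : 1 / 10 ≤ u) : mm u = 0 := by
  unfold mm
  exact min_eq_left (Real.log_nonneg (by linarith))

lemma gY_eq_zero {u : ℝ} (h1 : 1 / 10 ≤ u) (h2 : u ≤ 9 / 10) : gY u = 0 := by
  unfold gY
  rw [mm_eq_zero h1, mm_eq_zero (by linarith), sub_self]

lemma quant_X {L : ℝ} (hL : 0 ≤ L) (c : ℝ) {u : ℝ} (hu : u ∈ Ioo (0 : ℝ) 1) :
    quant (muX L ∗ Measure.dirac c) u = gX L u + c := by
  have h1 : muX L ∗ Measure.dirac c = U.map (fun u => gX L u + c) := by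
    rw [Measure.conv_dirac, muX, Measure.map_map (by fun_prop) (measurable_gX L)]
    rfl
  rw [h1, quant_map (g := fun u => gX L u + c) _ _ hu]
  · intro u _ v _ huv
    have := gX_mono hL huv
    simp only
    linarith
  · intro u hu ε hε
    by_cases h : u ≤ 3 / 4
    · refine ⟨u / 2, ⟨by linarith [hu.1], by linarith [hu.2]⟩, by linarith [hu.1], ?_⟩
      simp only [gX]
      rw [if_pos h, if_pos (by linarith [hu.1])]
      linarith
    · rw [not_le] at h
      refine ⟨(u + 3 / 4) / 2, ⟨by linarith, by linarith [hu.2]⟩, by linarith, ?_⟩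
      simp only [gX]
      rw [if_neg (by linarith), if_neg (by linarith)]
      linarith

lemma quant_Y (c : ℝ) {u : ℝ} (hu : u ∈ Ioo (0 : ℝ) 1) :
    quant (muY ∗ Measure.dirac c) u = gY u + c := by
  have h1 : muY ∗ Measure.dirac c = U.map (fun u => gY u + c) := by
    rw [Measure.conv_dirac, muY, Measure.map_map (by fun_prop) measurable_gY]
    rfl
  rw [h1, quant_map (g := fun u => gY u + c) _ _ hu]
  · intro u hu v hv huv
    have := gY_mono hu hv huv
    simp only
    linarith
  · intro u hu ε hε
    have hc : ContinuousAt (fun u => gY u + c) u := by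
      unfold gY mm
      apply ContinuousAt.add _ continuousAt_const
      apply ContinuousAt.sub
      · exact continuousAt_const.min (ContinuousAt.log (by fun_prop) (by linarith [hu.1]))
      · exact continuousAt_const.min (ContinuousAt.log (by fun_prop) (by linarith [hu.2]))
    have h2 : ∀ᶠ v in 𝓝 u, gY u + c - ε < gY v + c :=
      hc.eventually (lt_mem_nhds (by simp only; linarith))
    have h3 : ∀ᶠ v in 𝓝[<] u, v ∈ Ioo (0 : ℝ) 1 :=
      Filter.Eventually.filter_mono nhdsWithin_le_nhds (Ioo_mem_nhds hu.1 hu.2)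
    have h4 : ∀ᶠ v in 𝓝[<] u, v < u := self_mem_nhdsWithin
    obtain ⟨v, hv1, hv2, hv3⟩ := ((h2.filter_mono nhdsWithin_le_nhds).and (h3.and h4)).exists
    exact ⟨v, hv2, hv3, hv1⟩

lemma conv_zero (μ : Measure ℝ) [IsProbabilityMeasure μ] : μ ∗ Measure.dirac 0 = μ := by
  rw [Measure.conv_dirac_zero]

lemma quant_X0 {L : ℝ} (hL : 0 ≤ L) {u : ℝ} (hu : u ∈ Ioo (0 : ℝ) 1) :
    quant (muX L) u = gX L u := by
  have := quant_X hL 0 hu
  rwa [conv_zero, add_zero] at this

lemma quant_Y0 {u : ℝ} (hu : u ∈ Ioo (0 : ℝ) 1) : quant muY u = gY u := by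
  have := quant_Y 0 hu
  rwa [conv_zero, add_zero] at this

lemma integrable_mm : Integrable mm U := by
  have h1 : Integrable (fun u : ℝ => |Real.log 10| + |Real.log u|) U := by
    apply (integrable_const _).add
    have h2 : IntervalIntegrable Real.log volume 0 1 := intervalIntegral.intervalIntegrable_log'
    rw [intervalIntegrable_iff_integrableOn_Ioo_of_le zero_le_one] at h2
    exact h2.abs
  refine h1.mono' measurable_mm.aestronglyMeasurable ?_
  filter_upwards [ae_restrict_mem measurableSet_Ioo] with u hu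
  unfold mm
  rw [Real.norm_eq_abs, Real.log_mul (by norm_num) hu.1.ne']
  have h3 : |min 0 (Real.log 10 + Real.log u)| ≤ |Real.log 10 + Real.log u| := by
    rcases le_total 0 (Real.log 10 + Real.log u) with h | h
    · rw [min_eq_left h, abs_zero]; exact abs_nonneg _
    · rw [min_eq_right h]
  exact h3.trans (abs_add_le _ _)

lemma map_refl_U : U.map (fun u => 1 - u) = U := by
  have h : MeasurePreserving (fun u : ℝ => 1 - u) volume volume :=
    Measure.measurePreserving_sub_left volume (1 : ℝ)
  have h2 := h.restrict_preimage (s := Ioo (0 : ℝ) 1) measurableSet_Ioo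
  have h3 : (fun u : ℝ => 1 - u) ⁻¹' Ioo 0 1 = Ioo 0 1 := by
    ext u; simp only [mem_preimage, mem_Ioo]
    constructor <;> rintro ⟨h1, h2⟩ <;> constructor <;> linarith
  rw [h3] at h2
  exact h2.map_eq

lemma integral_refl {f : ℝ → ℝ} (hf : AEStronglyMeasurable f U) :
    ∫ u, f (1 - u) ∂U = ∫ u, f u ∂U := by
  have h := integral_map (μ := U) (φ := fun u : ℝ => 1 - u) (by fun_prop) (f := f)
    (by rw [map_refl_U]; exact hf)
  rw [map_refl_U] at h
  exact h.symm

lemma integrable_gY : Integrable gY U := by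
  unfold gY
  apply integrable_mm.sub
  have h : Integrable mm (U.map (fun u => 1 - u)) := by rw [map_refl_U]; exact integrable_mm
  exact h.comp_measurable (by fun_prop)

lemma integrable_Y : Integrable (fun x => x) muY := by
  unfold muY
  rw [integrable_map_measure (by fun_prop) measurable_gY.aemeasurable]
  exact integrable_gY

lemma bounded_gX (L u : ℝ) : |gX L u| ≤ |L| := by
  unfold gX
  split_ifs
  · rw [abs_div, abs_neg]
    have := abs_nonneg L
    norm_num
    linarith
  · rw [abs_div, abs_mul]
    have := abs_nonneg L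
    norm_num
    linarith

lemma integrable_gX (L : ℝ) : Integrable (gX L) U :=
  (integrable_const |L|).mono' (measurable_gX L).aestronglyMeasurable
    (Eventually.of_forall fun u => bounded_gX L u)

lemma integrable_X (L : ℝ) : Integrable (fun x => x) (muX L) := by
  unfold muX
  rw [integrable_map_measure (by fun_prop) (measurable_gX L).aemeasurable]
  exact integrable_gX L

/-- integration against the law of `X` -/
lemma lintegral_X (L : ℝ) {f : ℝ → ℝ≥0∞} (hf : Measurable f) :
    ∫⁻ x, f x ∂(muX L) = ENNReal.ofReal (3 / 4) * f (-L / 4) + ENNReal.ofReal (1 / 4) * f (3 * L / 4) := by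
  unfold muX
  rw [lintegral_map hf (measurable_gX L)]
  have hs : Ioo (0 : ℝ) 1 = Ioc 0 (3 / 4) ∪ Ioo (3 / 4) 1 := by
    ext u; simp only [mem_union, mem_Ioo, mem_Ioc]
    constructor
    · rintro ⟨h1, h2⟩
      rcases le_or_gt u (3 / 4) with h | h
      · exact Or.inl ⟨h1, h⟩
      · exact Or.inr ⟨h, h2⟩
    · rintro (⟨h1, h2⟩ | ⟨h1, h2⟩) <;> constructor <;> linarith
  have hd : Disjoint (Ioc (0 : ℝ) (3 / 4)) (Ioo (3 / 4) 1) := by
    rw [Set.disjoint_left]
    rintro u ⟨_, h2⟩ ⟨h3, _⟩
    linarith
  unfold U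
  rw [hs, lintegral_union measurableSet_Ioo hd]
  have e1 : ∫⁻ u in Ioc (0 : ℝ) (3 / 4), f (gX L u) = ∫⁻ u in Ioc (0 : ℝ) (3 / 4), f (-L / 4) := by
    apply setLIntegral_congr_fun measurableSet_Ioc
    intro u hu
    simp only [gX]
    rw [if_pos hu.2]
  have e2 : ∫⁻ u in Ioo (3 / 4 : ℝ) 1, f (gX L u) = ∫⁻ u in Ioo (3 / 4 : ℝ) 1, f (3 * L / 4) := by
    apply setLIntegral_congr_fun measurableSet_Ioo
    intro u hu
    simp only [gX]
    rw [if_neg (not_le.mpr hu.1)]
  rw [e1, e2, setLIntegral_const, setLIntegral_const, Real.volume_Ioc, Real.volume_Ioo, mul_comm,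
    mul_comm (f (3 * L / 4))]
  norm_num

/-- the mean difference of `X` with noise -/
lemma Dm_X {L : ℝ} (hL : 0 < L) (w : ℝ) :
    Dm (muX L) w = ENNReal.ofReal (5 / 8 * |w| + 3 / 8 * max L |w|) := by
  rw [Dm_eq, lintegral_dif (by fun_prop)]
  have h1 : ∀ x, ∫⁻ y, ENNReal.ofReal (max |x - y| |w|) ∂(muX L) =
      ENNReal.ofReal (3 / 4) * ENNReal.ofReal (max |x - -L / 4| |w|) +
        ENNReal.ofReal (1 / 4) * ENNReal.ofReal (max |x - 3 * L / 4| |w|) := fun x =>
    lintegral_X L (by fun_prop)
  simp only [h1]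
  rw [lintegral_X L (by fun_prop)]
  have e1 : |-L / 4 - -L / 4| = 0 := by rw [sub_self, abs_zero]
  have e2 : |-L / 4 - 3 * L / 4| = L := by
    rw [show -L / 4 - 3 * L / 4 = -L by ring, abs_neg, abs_of_pos hL]
  have e3 : |3 * L / 4 - -L / 4| = L := by
    rw [show 3 * L / 4 - -L / 4 = L by ring, abs_of_pos hL]
  have e4 : |3 * L / 4 - 3 * L / 4| = 0 := by rw [sub_self, abs_zero]
  rw [e1, e2, e3, e4, max_eq_right (abs_nonneg w)]
  have hw := abs_nonneg w
  have hm : 0 ≤ max L |w| := le_max_of_le_right hw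
  rw [← ENNReal.ofReal_mul (by norm_num), ← ENNReal.ofReal_mul (by norm_num),
    ← ENNReal.ofReal_mul (by norm_num), ← ENNReal.ofReal_mul (by norm_num),
    ← ENNReal.ofReal_add (by positivity) (by positivity),
    ← ENNReal.ofReal_add (by positivity) (by positivity),
    ← ENNReal.ofReal_mul (by norm_num), ← ENNReal.ofReal_mul (by norm_num),
    ← ENNReal.ofReal_add (by positivity) (by positivity)]
  congr 1
  ring

lemma Y_zero : ENNReal.ofReal (4 / 5) ≤ muY {0} := by
  unfold muY
  rw [Measure.map_apply measurable_gY (measurableSet_singleton 0),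
    Measure.restrict_apply' measurableSet_Ioo]
  calc ENNReal.ofReal (4 / 5) = volume (Icc (1 / 10 : ℝ) (9 / 10)) := by
        rw [Real.volume_Icc]; norm_num
    _ ≤ volume (gY ⁻¹' {0} ∩ Ioo 0 1) := measure_mono fun u hu =>
        ⟨gY_eq_zero hu.1 hu.2, by linarith [hu.1], by linarith [hu.2]⟩

lemma Y_low (t : ℝ) : 0 < muY (Iio (-t)) := by
  unfold muY
  rw [Measure.map_apply measurable_gY measurableSet_Iio, Measure.restrict_apply' measurableSet_Ioo]
  set e : ℝ := min (1 / 10) (Real.exp (-t - 1) / 10) with he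
  have hepos : 0 < e := lt_min (by norm_num) (by positivity)
  refine lt_of_lt_of_le ?_ (measure_mono (s := Ioo 0 e) fun u hu => ?_)
  · rw [Real.volume_Ioo, sub_zero, ENNReal.ofReal_pos]; exact hepos
  · have h1 : u < 1 / 10 := hu.2.trans_le (min_le_left _ _)
    have h2 : u < Real.exp (-t - 1) / 10 := hu.2.trans_le (min_le_right _ _)
    refine ⟨?_, hu.1, by linarith⟩
    change gY u < -t
    unfold gY
    rw [mm_eq_zero (by linarith : 1 / 10 ≤ 1 - u), sub_zero]
    unfold mm
    have h3 : Real.log (10 * u) < -t - 1 := by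
      rw [Real.log_lt_iff_lt_exp (by linarith [hu.1])]
      linarith
    exact (min_le_right _ _).trans_lt (by linarith)

lemma dif_zero : ENNReal.ofReal (16 / 25) ≤ dif muY {0} := by
  have h1 : dif muY {0} = ∫⁻ x, ∫⁻ y, ({0} : Set ℝ).indicator 1 (x - y) ∂muY ∂muY := by
    rw [← lintegral_dif (measurable_one.indicator (measurableSet_singleton 0)),
      lintegral_indicator_one (measurableSet_singleton 0)]
  have h2 : ∀ x, ({0} : Set ℝ).indicator (fun _ => muY {0}) x ≤
      ∫⁻ y, ({0} : Set ℝ).indicator 1 (x - y) ∂muY := by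
    intro x
    by_cases hx : x = 0
    · subst hx
      rw [indicator_of_mem (mem_singleton _), ← lintegral_indicator_one (measurableSet_singleton 0)]
      apply lintegral_mono
      intro y
      by_cases hy : y = 0
      · subst hy; simp
      · rw [indicator_of_notMem (by simpa using hy)]; exact zero_le
    · rw [indicator_of_notMem (by simpa using hx)]; exact zero_le
  calc ENNReal.ofReal (16 / 25) = ENNReal.ofReal (4 / 5) * ENNReal.ofReal (4 / 5) := by
        rw [← ENNReal.ofReal_mul (by norm_num)]; norm_num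
    _ ≤ muY {0} * muY {0} := mul_le_mul' Y_zero Y_zero
    _ = ∫⁻ x, ({0} : Set ℝ).indicator (fun _ => muY {0}) x ∂muY := by
        rw [lintegral_indicator_const (measurableSet_singleton 0)]
    _ ≤ _ := by rw [h1]; exact lintegral_mono h2

lemma dif_unbounded (t : ℝ) : 0 < dif muY {x | t < |x|} := by
  have hms : MeasurableSet {x : ℝ | t < |x|} := measurableSet_lt measurable_const (by fun_prop)
  have h1 : dif muY {x | t < |x|} = ∫⁻ x, ∫⁻ y, {x : ℝ | t < |x|}.indicator 1 (x - y) ∂muY ∂muY := by
    rw [← lintegral_dif (measurable_one.indicator hms), lintegral_indicator_one hms]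
  have h2 : ∀ x, (Iio (-t)).indicator (fun _ => muY {0}) x ≤
      ∫⁻ y, {x : ℝ | t < |x|}.indicator 1 (x - y) ∂muY := by
    intro x
    by_cases hx : x < -t
    · rw [indicator_of_mem (show x ∈ Iio (-t) from hx),
        ← lintegral_indicator_one (measurableSet_singleton 0)]
      apply lintegral_mono
      intro y
      by_cases hy : y = 0
      · subst hy
        have h3 : x - 0 ∈ {x : ℝ | t < |x|} := by
          change t < |x - 0|
          rw [sub_zero]
          have := neg_le_abs x
          linarith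
        beta_reduce
        rw [indicator_of_mem h3, indicator_of_mem (mem_singleton _)]
        exact le_rfl
      · rw [indicator_of_notMem (by simpa using hy)]; exact zero_le
    · rw [indicator_of_notMem (show x ∉ Iio (-t) from hx)]; exact zero_le
  have h0 : 0 < muY {0} := lt_of_lt_of_le (ENNReal.ofReal_pos.mpr (by norm_num)) Y_zero
  calc 0 < muY {0} * muY (Iio (-t)) := ENNReal.mul_pos h0.ne' (Y_low t).ne'
    _ = ∫⁻ x, (Iio (-t)).indicator (fun _ => muY {0}) x ∂muY := by
        rw [lintegral_indicator_const measurableSet_Iio]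
    _ ≤ _ := by rw [h1]; exact lintegral_mono h2

/-- the mean absolute difference of `Y` -/
noncomputable def gam : ℝ := (Dm muY 0).toReal

lemma Dm_Y0 : Dm muY 0 = ENNReal.ofReal gam := by
  unfold gam
  rw [ENNReal.ofReal_toReal (Dm_quant integrable_Y).1]

lemma gam_pos : 0 < gam := by
  have h := dif_unbounded 1
  have h1 : dif muY {x | 1 < |x|} ≤ Dm muY 0 := by
    have hms : MeasurableSet {x : ℝ | 1 < |x|} := measurableSet_lt measurable_const (by fun_prop)
    unfold Dm
    rw [← lintegral_indicator_one hms]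
    apply lintegral_mono
    intro x
    by_cases hx : 1 < |x|
    · beta_reduce
      rw [indicator_of_mem (show x ∈ {x : ℝ | 1 < |x|} from hx), add_zero, Pi.one_apply,
        ENNReal.one_le_ofReal]
      exact hx.le
    · rw [indicator_of_notMem (show x ∉ {x : ℝ | 1 < |x|} from hx)]; exact zero_le
  unfold gam
  exact ENNReal.toReal_pos (h.trans_le h1).ne' (Dm_quant integrable_Y).1

lemma Dm_Y_lower1 {w : ℝ} : ENNReal.ofReal (gam + 16 / 25 * |w|) ≤ Dm muY w := by
  have hms : MeasurableSet ({0} : Set ℝ) := measurableSet_singleton 0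
  rw [Dm_eq]
  calc ENNReal.ofReal (gam + 16 / 25 * |w|) = ENNReal.ofReal gam +
        ENNReal.ofReal |w| * ENNReal.ofReal (16 / 25) := by
        rw [ENNReal.ofReal_add gam_pos.le (by positivity), mul_comm,
          ENNReal.ofReal_mul (abs_nonneg w)]
    _ ≤ ENNReal.ofReal gam + ENNReal.ofReal |w| * dif muY {0} := by
        gcongr; exact dif_zero
    _ = ∫⁻ x, ENNReal.ofReal |x| ∂(dif muY) +
        ∫⁻ x, ({0} : Set ℝ).indicator (fun _ => ENNReal.ofReal |w|) x ∂(dif muY) := by
        rw [lintegral_indicator_const hms, ← Dm_Y0]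
        unfold Dm
        simp only [add_zero]
    _ = ∫⁻ x, (ENNReal.ofReal |x| + ({0} : Set ℝ).indicator (fun _ => ENNReal.ofReal |w|) x)
        ∂(dif muY) := by
        rw [lintegral_add_left (by fun_prop)]
    _ ≤ _ := by
        apply lintegral_mono
        intro x
        by_cases hx : x = 0
        · subst hx
          beta_reduce
          rw [indicator_of_mem (mem_singleton _), abs_zero, ENNReal.ofReal_zero, zero_add]
          exact ENNReal.ofReal_le_ofReal (le_max_right _ _)
        · simp only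
          rw [indicator_of_notMem (by simpa using hx), add_zero]
          exact ENNReal.ofReal_le_ofReal (le_max_left _ _)

lemma Dm_Y_lower2 (w : ℝ) : ENNReal.ofReal |w| < Dm muY w := by
  have hms : MeasurableSet {x : ℝ | |w| + 1 < |x|} :=
    measurableSet_lt measurable_const (by fun_prop)
  rw [Dm_eq]
  have h1 := dif_unbounded (|w| + 1)
  calc ENNReal.ofReal |w| < ENNReal.ofReal |w| + dif muY {x | |w| + 1 < |x|} :=
        ENNReal.lt_add_right ENNReal.ofReal_ne_top h1.ne'
    _ = ∫⁻ x, (ENNReal.ofReal |w| + {x : ℝ | |w| + 1 < |x|}.indicator 1 x) ∂(dif muY) := by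
        rw [lintegral_add_left measurable_const, lintegral_const, measure_univ, mul_one,
          lintegral_indicator_one hms]
    _ ≤ _ := by
        apply lintegral_mono
        intro x
        by_cases hx : |w| + 1 < |x|
        · simp only
          rw [indicator_of_mem (show x ∈ {x : ℝ | |w| + 1 < |x|} from hx), Pi.one_apply,
            show (1 : ℝ≥0∞) = ENNReal.ofReal 1 by simp,
            ← ENNReal.ofReal_add (abs_nonneg _) zero_le_one]
          exact ENNReal.ofReal_le_ofReal (hx.le.trans (le_max_left _ _))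
        · simp only
          rw [indicator_of_notMem (show x ∉ {x : ℝ | |w| + 1 < |x|} from hx), add_zero]
          exact ENNReal.ofReal_le_ofReal (le_max_right _ _)

/-- the noise comparison -/
lemma Dm_lt {w : ℝ} (hw : w ≠ 0) : Dm (muX (8 / 3 * gam)) w < Dm muY w := by
  have hg := gam_pos
  have hw' : 0 < |w| := abs_pos.mpr hw
  rw [Dm_X (by positivity)]
  rcases le_total (8 / 3 * gam) |w| with h | h
  · rw [max_eq_right h, show 5 / 8 * |w| + 3 / 8 * |w| = |w| by ring]
    exact Dm_Y_lower2 w
  · rw [max_eq_left h]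
    refine lt_of_lt_of_le ?_ Dm_Y_lower1
    rw [ENNReal.ofReal_lt_ofReal_iff (by positivity)]
    linarith

lemma Dm_zero_eq : Dm (muX (8 / 3 * gam)) 0 = Dm muY 0 := by
  have hg := gam_pos
  rw [Dm_X (by positivity), Dm_Y0, abs_zero, max_eq_left (by positivity)]
  congr 1; ring

lemma Dm_le (w : ℝ) : Dm (muX (8 / 3 * gam)) w ≤ Dm muY w := by
  by_cases hw : w = 0
  · rw [hw, Dm_zero_eq]
  · exact (Dm_lt hw).le

end Pool.Agent.R963.Inv
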