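import Pool.Agent.R963.Inv.Ex

/-!
# Mean minima and the conclusion
-/

namespace Pool.Agent.R963.Inv

open MeasureTheory ProbabilityTheory Set Filter Topology
open scoped ENNReal

/-- `F^{[-n]}` -/
noncomputable def iq (μ : Measure ℝ) : ℕ → ℝ → ℝ
  | 0 => fun _ => 0
  | 1 => quant μ
  | n + 2 => fun p => ∫ u in (0 : ℝ)..p, iq μ (n + 1) u

/-- `μ_{1:k}` -/
noncomputable def minMean (μ : Measure ℝ) (k : ℕ) : ℝ :=
  k * ∫ u in (0 : ℝ)..1, quant μ u * (1 - u) ^ (k - 1)

lemma interval_eq (f : ℝ → ℝ) : ∫ u in (0 : ℝ)..1, f u = ∫ u, f u ∂U := by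
  rw [intervalIntegral.integral_of_le zero_le_one, integral_Ioc_eq_integral_Ioo]

section

variable {ν : Measure ℝ} [IsProbabilityMeasure ν]

lemma intInt_quant (h : Integrable (fun x => x) ν) : IntervalIntegrable (quant ν) volume 0 1 := by
  rw [intervalIntegrable_iff_integrableOn_Ioo_of_le zero_le_one]
  exact integrable_quant h

lemma cont_iq2 (h : Integrable (fun x => x) ν) : ContinuousOn (iq ν 2) (Icc 0 1) := by
  have := intervalIntegral.continuousOn_primitive_interval' (intInt_quant h)
    (left_mem_uIcc (a := (0 : ℝ)) (b := 1))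
  rw [uIcc_of_le zero_le_one] at this
  exact this

lemma intInt_iq2 (h : Integrable (fun x => x) ν) : IntervalIntegrable (iq ν 2) volume 0 1 := by
  apply ContinuousOn.intervalIntegrable
  rw [uIcc_of_le zero_le_one]
  exact cont_iq2 h

lemma cont_iq3 (h : Integrable (fun x => x) ν) : ContinuousOn (iq ν 3) (Icc 0 1) := by
  have := intervalIntegral.continuousOn_primitive_interval' (intInt_iq2 h)
    (left_mem_uIcc (a := (0 : ℝ)) (b := 1))
  rw [uIcc_of_le zero_le_one] at this
  exact this

lemma intInt_iq3 (h : Integrable (fun x => x) ν) : IntervalIntegrable (iq ν 3) volume 0 1 := by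
  apply ContinuousOn.intervalIntegrable
  rw [uIcc_of_le zero_le_one]
  exact cont_iq3 h

lemma iq3_one (h : Integrable (fun x => x) ν) :
    iq ν 3 1 = ∫ v in (0 : ℝ)..1, quant ν v * (1 - v) := by
  have h1 := fubini_primitive (h := quant ν) (w := fun _ => 1) (integrable_quant h) continuous_const
  simp only [one_mul, intervalIntegral.integral_const, smul_eq_mul, mul_one] at h1
  exact h1

lemma integral_iq3 (h : Integrable (fun x => x) ν) :
    ∫ p in (0 : ℝ)..1, iq ν 3 p = ∫ v in (0 : ℝ)..1, quant ν v * ((1 - v) ^ 2 / 2) := by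
  have hi2 : Integrable (iq ν 2) U := by
    have := intInt_iq2 h
    rwa [intervalIntegrable_iff_integrableOn_Ioo_of_le zero_le_one] at this
  have h1 := fubini_primitive (h := iq ν 2) (w := fun _ => 1) hi2 continuous_const
  simp only [one_mul, intervalIntegral.integral_const, smul_eq_mul, mul_one] at h1
  have h2 := fubini_primitive (h := quant ν) (w := fun u => 1 - u) (integrable_quant h)
    (by fun_prop)
  have h3 : ∀ v : ℝ, ∫ u in v..1, (1 - u) = (1 - v) ^ 2 / 2 := by
    intro v
    rw [intervalIntegral.integral_sub (by simp) (by simp), intervalIntegral.integral_const,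
      integral_id, smul_eq_mul]
    ring
  simp only [h3] at h2
  calc ∫ p in (0 : ℝ)..1, iq ν 3 p = ∫ v in (0 : ℝ)..1, iq ν 2 v * (1 - v) := h1
    _ = ∫ u in (0 : ℝ)..1, (1 - u) * ∫ v in (0 : ℝ)..u, quant ν v := by
        congr 1
        ext u
        rw [mul_comm]
        rfl
    _ = _ := h2

lemma integral_one_sub (h : Integrable (fun x => x) ν) :
    ∫ v in (0 : ℝ)..1, quant ν v * (1 - v) = (∫ x, x ∂ν) / 2 - (Dm ν 0).toReal / 4 := by
  rw [interval_eq, (Dm_quant h).2, ← integral_quant]
  have hq := integrable_quant h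
  have hq2 : Integrable (fun u => quant ν u * (2 * u - 1)) U := by
    have := hq.bdd_mul (c := 1) (f := fun u : ℝ => 2 * u - 1) (by fun_prop) (by
      filter_upwards [ae_restrict_mem measurableSet_Ioo] with u hu
      rw [Real.norm_eq_abs, abs_le]
      constructor <;> linarith [hu.1, hu.2])
    refine this.congr (Eventually.of_forall fun u => ?_)
    simp only; ring
  have : (fun v => quant ν v * (1 - v)) =
      fun v => quant ν v / 2 - quant ν v * (2 * v - 1) / 2 := by
    ext v; ring
  rw [this, integral_sub (hq.div_const 2) (hq2.div_const 2), integral_div, integral_div]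
  ring

end

/-- the first part: the dominance forces less dispersion -/
lemma D_le {μ ν : Measure ℝ} [IsProbabilityMeasure μ] [IsProbabilityMeasure ν]
    (hμ : Integrable (fun x => x) μ) (hν : Integrable (fun x => x) ν)
    (hm : ∫ x, x ∂μ = ∫ x, x ∂ν) (h : ∀ p ∈ Ioo (0 : ℝ) 1, iq μ 3 p ≤ iq ν 3 p) :
    Dm ν 0 ≤ Dm μ 0 := by
  have h1 : iq μ 3 1 ≤ iq ν 3 1 := by
    have c1 : Tendsto (iq μ 3) (𝓝[Ioo 0 1] 1) (𝓝 (iq μ 3 1)) :=
      ((cont_iq3 hμ) 1 (right_mem_Icc.mpr zero_le_one)).mono Ioo_subset_Icc_self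
    have c2 : Tendsto (iq ν 3) (𝓝[Ioo 0 1] 1) (𝓝 (iq ν 3 1)) :=
      ((cont_iq3 hν) 1 (right_mem_Icc.mpr zero_le_one)).mono Ioo_subset_Icc_self
    have : (𝓝[Ioo 0 1] (1 : ℝ)).NeBot := by
      rw [← mem_closure_iff_nhdsWithin_neBot, closure_Ioo (by norm_num)]
      exact right_mem_Icc.mpr zero_le_one
    refine le_of_tendsto_of_tendsto c1 c2 ?_
    filter_upwards [self_mem_nhdsWithin] with p hp
    exact h p hp
  rw [iq3_one hμ, iq3_one hν, integral_one_sub hμ, integral_one_sub hν, hm] at h1
  have h2 : (Dm ν 0).toReal ≤ (Dm μ 0).toReal := by linarith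
  exact (ENNReal.toReal_le_toReal (Dm_quant hν).1 (Dm_quant hμ).1).mp h2

/-- `L` -/
noncomputable def LL : ℝ := 8 / 3 * gam

lemma LL_pos : 0 < LL := by
  have := gam_pos
  unfold LL; positivity

lemma integral_poly_X (L : ℝ) {f F : ℝ → ℝ} (hF : ∀ u, HasDerivAt F (f u) u) (hf : Continuous f) :
    ∫ u in (0 : ℝ)..1, gX L u * f u =
      -L / 4 * (F (3 / 4) - F 0) + 3 * L / 4 * (F 1 - F (3 / 4)) := by
  have i1 : IntervalIntegrable (fun u => gX L u * f u) volume 0 (3 / 4) := by
    rw [intervalIntegrable_iff_integrableOn_Ioc_of_le (by norm_num)]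
    have : IntegrableOn (fun u => -L / 4 * f u) (Ioc 0 (3 / 4)) :=
      (intervalIntegrable_iff_integrableOn_Ioc_of_le (by norm_num)).mp
        ((hf.intervalIntegrable _ _).const_mul _)
    refine this.congr_fun (fun u hu => ?_) measurableSet_Ioc
    simp only [gX]; rw [if_pos hu.2]
  have i2 : IntervalIntegrable (fun u => gX L u * f u) volume (3 / 4) 1 := by
    rw [intervalIntegrable_iff_integrableOn_Ioc_of_le (by norm_num)]
    have : IntegrableOn (fun u => 3 * L / 4 * f u) (Ioc (3 / 4) 1) :=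
      (intervalIntegrable_iff_integrableOn_Ioc_of_le (by norm_num)).mp
        ((hf.intervalIntegrable _ _).const_mul _)
    refine this.congr_fun (fun u hu => ?_) measurableSet_Ioc
    simp only [gX]; rw [if_neg (not_le.mpr hu.1)]
  rw [← intervalIntegral.integral_add_adjacent_intervals i1 i2]
  have e1 : ∫ u in (0 : ℝ)..(3 / 4), gX L u * f u = ∫ u in (0 : ℝ)..(3 / 4), -L / 4 * f u := by
    apply intervalIntegral.integral_congr_ae
    rw [uIoc_of_le (by norm_num)]
    filter_upwards with u hu
    simp only [gX]; rw [if_pos hu.2]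
  have e2 : ∫ u in (3 / 4 : ℝ)..1, gX L u * f u = ∫ u in (3 / 4 : ℝ)..1, 3 * L / 4 * f u := by
    apply intervalIntegral.integral_congr_ae
    rw [uIoc_of_le (by norm_num)]
    filter_upwards with u hu
    simp only [gX]; rw [if_neg (not_le.mpr hu.1)]
  rw [e1, e2, intervalIntegral.integral_const_mul, intervalIntegral.integral_const_mul,
    intervalIntegral.integral_eq_sub_of_hasDerivAt (fun u _ => hF u) (hf.intervalIntegrable _ _),
    intervalIntegral.integral_eq_sub_of_hasDerivAt (fun u _ => hF u) (hf.intervalIntegrable _ _)]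

lemma hasDeriv_aux (n : ℕ) (u : ℝ) :
    HasDerivAt (fun u : ℝ => -(1 - u) ^ (n + 1) / (n + 1)) ((1 - u) ^ n) u := by
  have h1 : HasDerivAt (fun u : ℝ => (1 - u) ^ (n + 1)) (((n + 1 : ℕ) : ℝ) * (1 - u) ^ n * -1) u := by
    have := ((hasDerivAt_id u).const_sub 1).fun_pow (n + 1)
    simpa using this
  have h2 := (h1.neg).div_const ((n : ℝ) + 1)
  refine h2.congr_deriv ?_
  have : (n : ℝ) + 1 ≠ 0 := by positivity
  push_cast
  field_simp

lemma integral_X_pow (L : ℝ) (n : ℕ) : ∫ u in (0 : ℝ)..1, gX L u * (1 - u) ^ n =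
    -L / 4 * ((1 - (1 / 4) ^ (n + 1)) / (n + 1)) + 3 * L / 4 * ((1 / 4) ^ (n + 1) / (n + 1)) := by
  rw [integral_poly_X L (hasDeriv_aux n) (by fun_prop)]
  norm_num
  ring

lemma quantX_integral {L : ℝ} (hL : 0 ≤ L) (f : ℝ → ℝ) :
    ∫ u in (0 : ℝ)..1, quant (muX L) u * f u = ∫ u in (0 : ℝ)..1, gX L u * f u := by
  rw [interval_eq, interval_eq]
  apply setIntegral_congr_fun measurableSet_Ioo
  intro u hu
  simp only
  rw [quant_X0 hL hu]

lemma quantY_integral (f : ℝ → ℝ) :
    ∫ u in (0 : ℝ)..1, quant muY u * f u = ∫ u in (0 : ℝ)..1, gY u * f u := by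
  rw [interval_eq, interval_eq]
  apply setIntegral_congr_fun measurableSet_Ioo
  intro u hu
  simp only
  rw [quant_Y0 hu]

lemma integral_gY : ∫ u, gY u ∂U = 0 := by
  have h := integral_refl (f := gY) measurable_gY.aestronglyMeasurable
  simp only [gY_odd] at h
  rw [integral_neg] at h
  linarith

lemma mean_Y : ∫ x, x ∂muY = 0 := by
  unfold muY
  rw [integral_map measurable_gY.aemeasurable (by fun_prop)]
  exact integral_gY

lemma mean_X (L : ℝ) : ∫ x, x ∂(muX L) = 0 := by
  unfold muX
  rw [integral_map (measurable_gX L).aemeasurable (by fun_prop), ← interval_eq]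
  have := integral_X_pow L 0
  simp only [pow_zero, mul_one] at this
  rw [this]
  norm_num
  ring

lemma integrable_gY_mul {f : ℝ → ℝ} (hf : Continuous f) : Integrable (fun u => gY u * f u) U := by
  obtain ⟨C, hC⟩ := isCompact_Icc.exists_bound_of_continuousOn (s := Icc (0 : ℝ) 1) hf.continuousOn
  have := integrable_gY.bdd_mul (c := C) hf.aestronglyMeasurable (by
    filter_upwards [ae_restrict_mem measurableSet_Ioo] with u hu
    exact hC u ⟨hu.1.le, hu.2.le⟩)
  refine this.congr (Eventually.of_forall fun u => ?_)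
  simp only; ring

lemma integral_Y_one : ∫ u in (0 : ℝ)..1, gY u * (1 - u) = - gam / 4 := by
  rw [← quantY_integral, integral_one_sub integrable_Y, mean_Y]
  unfold gam
  ring

lemma integral_Y_two : ∫ u in (0 : ℝ)..1, gY u * (1 - u) ^ 2 = - gam / 4 := by
  have h1 : ∫ u, gY u * (1 - u) ^ 2 ∂U = - ∫ u, gY u * u ^ 2 ∂U := by
    have h := integral_refl (f := fun u => gY u * u ^ 2)
      (integrable_gY_mul (by fun_prop)).aestronglyMeasurable
    simp only [gY_odd] at h
    rw [← h, ← integral_neg]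
    congr 1
    ext u; ring
  have h2 : ∫ u, gY u * (1 - u) ^ 2 ∂U = (∫ u, gY u * (1 - u) ∂U) * 2 - ∫ u, gY u ∂U +
      ∫ u, gY u * u ^ 2 ∂U := by
    have a1 : Integrable (fun u => gY u * (1 - u)) U :=
      integrable_gY_mul (f := fun u => 1 - u) (by fun_prop)
    have a2 : Integrable (fun u => gY u * u ^ 2) U :=
      integrable_gY_mul (f := fun u => u ^ 2) (by fun_prop)
    have e1 : ∫ u, gY u * (1 - u) ^ 2 ∂U =
        ∫ u, ((gY u * (1 - u) * 2 - gY u) + gY u * u ^ 2) ∂U := by
      congr 1
      ext u; ring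
    have e2 := integral_add (f := fun u => gY u * (1 - u) * 2 - gY u) (g := fun u => gY u * u ^ 2)
      ((a1.mul_const 2).sub integrable_gY) a2
    have e3 := integral_sub (f := fun u => gY u * (1 - u) * 2) (g := gY) (a1.mul_const 2)
      integrable_gY
    rw [e1, e2, e3, integral_mul_const]
  rw [integral_gY, ← interval_eq (fun u => gY u * (1 - u)), integral_Y_one] at h2
  rw [interval_eq]
  linarith

lemma minMean_one : minMean (muX LL) 1 = minMean muY 1 := by
  unfold minMean
  rw [quantX_integral LL_pos.le, quantY_integral]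
  have h1 := integral_X_pow LL 0
  have h2 : ∫ u in (0 : ℝ)..1, gY u * (1 - u) ^ (1 - 1) = 0 := by
    simp only [Nat.sub_self, pow_zero, mul_one]
    rw [interval_eq, integral_gY]
  rw [h2, Nat.sub_self, h1]
  norm_num
  ring

lemma minMean_two : minMean (muX LL) 2 = minMean muY 2 := by
  unfold minMean
  rw [quantX_integral LL_pos.le, quantY_integral]
  have h1 := integral_X_pow LL 1
  have h2 : ∫ u in (0 : ℝ)..1, gY u * (1 - u) ^ (2 - 1) = -gam / 4 := by
    simp only [Nat.add_one_sub_one, pow_one]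
    exact integral_Y_one
  rw [h2, show 2 - 1 = 1 from rfl, h1]
  unfold LL
  norm_num
  ring

lemma minMean_three : minMean muY 3 < minMean (muX LL) 3 := by
  unfold minMean
  rw [quantX_integral LL_pos.le, quantY_integral]
  have h1 := integral_X_pow LL 2
  rw [show 3 - 1 = 2 from rfl, integral_Y_two, h1]
  have := gam_pos
  unfold LL
  norm_num
  linarith

/-- the main conclusion: no independent noise reverses the order -/
theorem no_noise {ζ : Measure ℝ} [IsProbabilityMeasure ζ] (hζ : Integrable (fun x => x) ζ)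
    (h : ∀ p ∈ Ioo (0 : ℝ) 1, iq (muX LL ∗ ζ) 3 p ≤ iq (muY ∗ ζ) 3 p) : False := by
  have hX := integrable_conv (integrable_X LL) hζ
  have hY := integrable_conv integrable_Y hζ
  have hD := D_le hX hY (by
    rw [mean_conv (integrable_X LL) hζ, mean_conv integrable_Y hζ, mean_X, mean_Y]) h
  rw [Dm_conv, Dm_conv] at hD
  have hfin : ∫⁻ w, Dm (muX LL) w ∂(dif ζ) ≠ ∞ := by
    rw [← Dm_conv]
    exact (Dm_quant hX).1
  have hae := ae_eq_of_ae_le_of_lintegral_le (Eventually.of_forall fun w => Dm_le w) hfin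
    measurable_Dm.aemeasurable hD
  obtain ⟨c, rfl⟩ := dirac_of_dif (ζ := ζ) (by
    filter_upwards [hae] with w hw
    by_contra hne
    exact (Dm_lt hne).ne hw)
  have h1 : ∫ p in (0 : ℝ)..1, iq (muX LL ∗ Measure.dirac c) 3 p ≤
      ∫ p in (0 : ℝ)..1, iq (muY ∗ Measure.dirac c) 3 p := by
    apply intervalIntegral.integral_mono_on_of_le_Ioo zero_le_one (intInt_iq3 hX) (intInt_iq3 hY)
    exact h
  rw [integral_iq3 hX, integral_iq3 hY] at h1
  have e1 : ∫ v in (0 : ℝ)..1, quant (muX LL ∗ Measure.dirac c) v * ((1 - v) ^ 2 / 2) =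
      (∫ v in (0 : ℝ)..1, gX LL v * (1 - v) ^ 2) / 2 + c * (∫ v in (0 : ℝ)..1, (1 - v) ^ 2 / 2) := by
    rw [interval_eq, interval_eq, interval_eq, ← integral_div, ← integral_const_mul,
      ← integral_add]
    · apply setIntegral_congr_fun measurableSet_Ioo
      intro v hv
      simp only
      rw [quant_X LL_pos.le c hv]; ring
    · apply Integrable.div_const
      have := (integrable_gX LL).bdd_mul (c := 1) (f := fun u : ℝ => (1 - u) ^ 2) (by fun_prop) (by
        filter_upwards [ae_restrict_mem measurableSet_Ioo] with u hu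
        rw [Real.norm_eq_abs, abs_le]
        constructor <;> nlinarith [hu.1, hu.2])
      refine this.congr (Eventually.of_forall fun u => ?_)
      simp only; ring
    · apply Integrable.const_mul
      have : IntervalIntegrable (fun v : ℝ => (1 - v) ^ 2 / 2) volume 0 1 :=
        (by fun_prop : Continuous fun v : ℝ => (1 - v) ^ 2 / 2).intervalIntegrable _ _
      rwa [intervalIntegrable_iff_integrableOn_Ioo_of_le zero_le_one] at this
  have e2 : ∫ v in (0 : ℝ)..1, quant (muY ∗ Measure.dirac c) v * ((1 - v) ^ 2 / 2) =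
      (∫ v in (0 : ℝ)..1, gY v * (1 - v) ^ 2) / 2 + c * (∫ v in (0 : ℝ)..1, (1 - v) ^ 2 / 2) := by
    rw [interval_eq, interval_eq, interval_eq, ← integral_div, ← integral_const_mul,
      ← integral_add]
    · apply setIntegral_congr_fun measurableSet_Ioo
      intro v hv
      simp only
      rw [quant_Y c hv]; ring
    · exact (integrable_gY_mul (by fun_prop)).div_const 2
    · apply Integrable.const_mul
      have : IntervalIntegrable (fun v : ℝ => (1 - v) ^ 2 / 2) volume 0 1 :=
        (by fun_prop : Continuous fun v : ℝ => (1 - v) ^ 2 / 2).intervalIntegrable _ _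
      rwa [intervalIntegrable_iff_integrableOn_Ioo_of_le zero_le_one] at this
  have h3 := minMean_three
  unfold minMean at h3
  rw [quantX_integral LL_pos.le, quantY_integral, show 3 - 1 = 2 from rfl] at h3
  push_cast at h3
  rw [e1, e2] at h1
  linarith

end Pool.Agent.R963.Inv
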