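import Mathlib

/-!
# Quantile functions and iterated integrals
-/

namespace Pool.Agent.R963.Inv

open MeasureTheory ProbabilityTheory Set Filter Topology
open scoped ENNReal

/-- Lebesgue measure on `(0, 1)` -/
noncomputable abbrev U : Measure ℝ := volume.restrict (Ioo 0 1)

instance : IsProbabilityMeasure U := ⟨by simp [U]⟩

/-- the quantile function `F⁻¹(p) = inf {x | p ≤ F x}` of the law `μ` -/
noncomputable def quant (μ : Measure ℝ) (p : ℝ) : ℝ := sInf {x : ℝ | p ≤ cdf μ x}

section Basic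

variable {μ : Measure ℝ} [IsProbabilityMeasure μ]

lemma set_eq {p : ℝ} (hp : p ∈ Ioo (0 : ℝ) 1) : {x : ℝ | p ≤ cdf μ x} = Ici (quant μ p) := by
  have hne : {x : ℝ | p ≤ cdf μ x}.Nonempty := by
    obtain ⟨x, hx⟩ := ((tendsto_cdf_atTop μ).eventually_const_lt hp.2).exists
    exact ⟨x, hx.le⟩
  have hbdd : BddBelow {x : ℝ | p ≤ cdf μ x} := by
    obtain ⟨x, hx⟩ := ((tendsto_cdf_atBot μ).eventually_lt_const hp.1).exists
    refine ⟨x, fun y hy => ?_⟩
    by_contra hc
    have := (monotone_cdf μ) (not_le.mp hc).le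
    have hy' : p ≤ cdf μ y := hy
    linarith
  have hmem : p ≤ cdf μ (quant μ p) := by
    have hrc : Tendsto (cdf μ) (𝓝[>] (quant μ p)) (𝓝 (cdf μ (quant μ p))) :=
      ((cdf μ).right_continuous (quant μ p)).tendsto.mono_left
        (nhdsWithin_mono _ Ioi_subset_Ici_self)
    refine ge_of_tendsto hrc ?_
    filter_upwards [self_mem_nhdsWithin] with x hx
    obtain ⟨y, hy, hyx⟩ := exists_lt_of_csInf_lt hne (show sInf {x : ℝ | p ≤ cdf μ x} < x from hx)
    have hy' : p ≤ cdf μ y := hy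
    exact hy'.trans ((monotone_cdf μ) hyx.le)
  ext x
  constructor
  · intro hx
    exact csInf_le hbdd hx
  · intro hx
    exact hmem.trans ((monotone_cdf μ) hx)

lemma quant_le_iff {p : ℝ} (hp : p ∈ Ioo (0 : ℝ) 1) (x : ℝ) : quant μ p ≤ x ↔ p ≤ cdf μ x := by
  have := set_eq (μ := μ) hp
  constructor
  · intro h
    have : x ∈ {x : ℝ | p ≤ cdf μ x} := by rw [this]; exact h
    exact this
  · intro h
    have h2 : x ∈ {x : ℝ | p ≤ cdf μ x} := h
    rw [this] at h2
    exact h2

lemma quant_mono : MonotoneOn (quant μ) (Ioo 0 1) := by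
  intro p hp r hr hpr
  rw [quant_le_iff hp]
  exact hpr.trans ((quant_le_iff hr _).mp le_rfl)

lemma aemeasurable_quant : AEMeasurable (quant μ) U :=
  aemeasurable_restrict_of_monotoneOn measurableSet_Ioo quant_mono

lemma map_quant : U.map (quant μ) = μ := by
  have : IsProbabilityMeasure (U.map (quant μ)) :=
    Measure.isProbabilityMeasure_map aemeasurable_quant
  apply Measure.ext_of_Iic
  intro x
  rw [Measure.map_apply_of_aemeasurable aemeasurable_quant measurableSet_Iic, ← ofReal_cdf μ x,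
    Measure.restrict_apply' measurableSet_Ioo]
  have h1 : quant μ ⁻¹' Iic x ∩ Ioo 0 1 = Iic (cdf μ x) ∩ Ioo 0 1 := by
    ext p
    simp only [mem_inter_iff, mem_preimage, mem_Iic]
    constructor
    · rintro ⟨h1, h2⟩; exact ⟨(quant_le_iff h2 x).mp h1, h2⟩
    · rintro ⟨h1, h2⟩; exact ⟨(quant_le_iff h2 x).mpr h1, h2⟩
  rw [h1]
  have h0 := cdf_nonneg μ x
  have h1' := cdf_le_one μ x
  apply le_antisymm
  · calc volume (Iic (cdf μ x) ∩ Ioo 0 1) ≤ volume (Ioc 0 (cdf μ x)) :=
        measure_mono fun p hp => ⟨hp.2.1, hp.1⟩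
      _ = ENNReal.ofReal (cdf μ x) := by rw [Real.volume_Ioc, sub_zero]
  · calc ENNReal.ofReal (cdf μ x) = volume (Ioo 0 (cdf μ x)) := by rw [Real.volume_Ioo, sub_zero]
      _ ≤ volume (Iic (cdf μ x) ∩ Ioo 0 1) :=
        measure_mono fun p hp => ⟨hp.2.le, hp.1, hp.2.trans_le h1'⟩

lemma integrable_quant (hμ : Integrable (fun x => x) μ) : Integrable (quant μ) U := by
  have h : Integrable (fun x => x) (U.map (quant μ)) := by rwa [map_quant]
  exact h.comp_aemeasurable aemeasurable_quant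

lemma integral_quant : ∫ u, quant μ u ∂U = ∫ x, x ∂μ := by
  conv_rhs => rw [← map_quant (μ := μ)]
  rw [integral_map aemeasurable_quant (by fun_prop)]

end Basic

/-- the quantile function of the law of `g(U)` is `g` -/
lemma quant_map {g : ℝ → ℝ} (hg : MonotoneOn g (Ioo 0 1))
    (hl : ∀ u ∈ Ioo (0 : ℝ) 1, ∀ ε > 0, ∃ v ∈ Ioo (0 : ℝ) 1, v < u ∧ g u - ε < g v)
    {u : ℝ} (hu : u ∈ Ioo (0 : ℝ) 1) : quant (U.map g) u = g u := by
  have hgm : AEMeasurable g U := aemeasurable_restrict_of_monotoneOn measurableSet_Ioo hg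
  have : IsProbabilityMeasure (U.map g) := Measure.isProbabilityMeasure_map hgm
  have hcdf : ∀ x, ENNReal.ofReal (cdf (U.map g) x) = volume (g ⁻¹' Iic x ∩ Ioo 0 1) := by
    intro x
    rw [ofReal_cdf, Measure.map_apply_of_aemeasurable hgm measurableSet_Iic,
      Measure.restrict_apply' measurableSet_Ioo]
  apply le_antisymm
  · rw [quant_le_iff hu, ← ENNReal.ofReal_le_ofReal_iff (cdf_nonneg _ _), hcdf]
    calc ENNReal.ofReal u = volume (Ioo 0 u) := by rw [Real.volume_Ioo, sub_zero]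
      _ ≤ volume (g ⁻¹' Iic (g u) ∩ Ioo 0 1) := measure_mono fun v hv =>
        ⟨hg ⟨hv.1, hv.2.trans hu.2⟩ hu hv.2.le, hv.1, hv.2.trans hu.2⟩
  · by_contra hc
    rw [not_le] at hc
    obtain ⟨v, hv, hvu, hgv⟩ := hl u hu (g u - quant (U.map g) u) (by linarith)
    rw [sub_sub_cancel] at hgv
    have h1 := (quant_le_iff (μ := U.map g) hu _).mp le_rfl
    rw [← ENNReal.ofReal_le_ofReal_iff (cdf_nonneg _ _), hcdf] at h1
    have h2 : volume (g ⁻¹' Iic (quant (U.map g) u) ∩ Ioo 0 1) ≤ volume (Ioo 0 v) := by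
      apply measure_mono
      rintro w ⟨hw1, hw2⟩
      refine ⟨hw2.1, ?_⟩
      by_contra hcc
      have := hg hv hw2 (not_lt.mp hcc)
      have hw1' : g w ≤ quant (U.map g) u := hw1
      linarith
    rw [Real.volume_Ioo, sub_zero] at h2
    have h3 := (ENNReal.ofReal_le_ofReal_iff hv.1.le).mp (h1.trans h2)
    linarith

/-- Fubini for primitives -/
lemma fubini_primitive {h w : ℝ → ℝ} (hh : Integrable h U) (hw : Continuous w) :
    ∫ u in (0 : ℝ)..1, w u * ∫ v in (0 : ℝ)..u, h v =
      ∫ v in (0 : ℝ)..1, h v * ∫ u in v..1, w u := by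
  have hk : Integrable (fun p : ℝ × ℝ => w p.1 * (if p.2 < p.1 then h p.2 else 0)) (U.prod U) := by
    obtain ⟨C, hC⟩ := isCompact_Icc.exists_bound_of_continuousOn (s := Icc (0 : ℝ) 1) hw.continuousOn
    have h2 : Integrable (fun p : ℝ × ℝ => C * ‖h p.2‖) (U.prod U) :=
      (hh.norm.comp_snd U).const_mul C
    have hae : ∀ᵐ p ∂(U.prod U), p.1 ∈ Ioo (0 : ℝ) 1 := by
      have h3 : ∀ᵐ u ∂U, u ∈ Ioo (0 : ℝ) 1 := ae_restrict_mem measurableSet_Ioo
      exact (Measure.quasiMeasurePreserving_fst (μ := U) (ν := U)).ae h3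
    refine h2.mono' ?_ ?_
    · have hm1 : AEStronglyMeasurable (fun p : ℝ × ℝ => h p.2) (U.prod U) :=
        (hh.aestronglyMeasurable).comp_snd
      have hms : MeasurableSet {p : ℝ × ℝ | p.2 < p.1} := measurableSet_lt measurable_snd measurable_fst
      have hm2 := hm1.indicator hms
      refine ((hw.measurable.comp measurable_fst).aestronglyMeasurable).mul (hm2.congr ?_)
      exact Eventually.of_forall fun p => by simp [indicator]
    · filter_upwards [hae] with p hp
      rw [norm_mul]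
      have h4 := hC p.1 ⟨hp.1.le, hp.2.le⟩
      have h5 : ‖(if p.2 < p.1 then h p.2 else 0)‖ ≤ ‖h p.2‖ := by
        split_ifs
        · exact le_rfl
        · rw [norm_zero]; exact norm_nonneg _
      exact mul_le_mul h4 h5 (norm_nonneg _) ((norm_nonneg _).trans h4)
  have hsw := integral_integral_swap (f := fun u v => w u * (if v < u then h v else 0)) hk
  have e1 : ∫ u in (0 : ℝ)..1, w u * ∫ v in (0 : ℝ)..u, h v =
      ∫ u, ∫ v, w u * (if v < u then h v else 0) ∂U ∂U := by
    rw [intervalIntegral.integral_of_le zero_le_one, integral_Ioc_eq_integral_Ioo]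
    apply setIntegral_congr_fun measurableSet_Ioo
    intro u hu
    simp only
    rw [integral_const_mul, intervalIntegral.integral_of_le hu.1.le, integral_Ioc_eq_integral_Ioo]
    congr 1
    rw [← integral_indicator measurableSet_Ioo, ← integral_indicator measurableSet_Ioo]
    congr 1
    ext v
    simp only [indicator, mem_Ioo]
    split_ifs with h1 h2 h3 h4 h5
    · rfl
    · exact absurd h1.2 h3
    · exact absurd ⟨h1.1, h1.2.trans hu.2⟩ h2
    · exact absurd ⟨h4.1, h5⟩ h1
    · rfl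
    · rfl
  have e2 : ∫ v in (0 : ℝ)..1, h v * ∫ u in v..1, w u =
      ∫ v, ∫ u, w u * (if v < u then h v else 0) ∂U ∂U := by
    rw [intervalIntegral.integral_of_le zero_le_one, integral_Ioc_eq_integral_Ioo]
    apply setIntegral_congr_fun measurableSet_Ioo
    intro v hv
    simp only
    rw [intervalIntegral.integral_of_le hv.2.le, integral_Ioc_eq_integral_Ioo, ← integral_const_mul,
      ← integral_indicator measurableSet_Ioo, ← integral_indicator measurableSet_Ioo]
    congr 1
    ext u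
    simp only [indicator, mem_Ioo]
    split_ifs with h1 h2 h3 h4 h5
    · ring
    · exact absurd h1.1 h3
    · exact absurd ⟨hv.1.trans h1.1, h1.2⟩ h2
    · exact absurd ⟨h5, h4.2⟩ h1
    · rw [mul_zero]
    · rfl
  rw [e1, e2, hsw]

end Pool.Agent.R963.Inv
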